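import Pool.Agent.U19.AS.Defs

/-!
# The digraph of a 3SAT instance, with abstract names
-/

namespace Pool.Agent.NPC.U19.AS

open Relation

/-- the names of the vertices -/
inductive Nd : Type
  | m (t : ℕ)
  | k (c t : ℕ)
  | o (x c : ℕ) (b : Bool)
  | i (x c : ℕ) (b : Bool) (t : ℕ)

/-- the vertices; `M` is the number of the clauses, `n` is the number of the variables -/
inductive Vd (M n : ℕ) : Nd → Prop
  | m {t : ℕ} : t < 4 → Vd M n (.m t)
  | k {c t : ℕ} : c < M → t < 4 → Vd M n (.k c t)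
  | o {x c : ℕ} {b : Bool} : x < n → c < M → Vd M n (.o x c b)
  | i {x c : ℕ} {b : Bool} {t : ℕ} : x < n → c < M → t < 4 → Vd M n (.i x c b t)

/-- the arcs; `P s x c` means that the literal `(s, x)` is in the clause `c` -/
inductive Arc (M n : ℕ) (P : Bool → ℕ → ℕ → Prop) : Nd → Nd → Prop
  | mm {t t' : ℕ} : t < 4 → t' < 4 → t ≠ t' → Arc M n P (.m t) (.m t')
  | kk {c t t' : ℕ} : c < M → t < 4 → t' < 4 → t ≠ t' → Arc M n P (.k c t) (.k c t')
  | ii {x c : ℕ} {b : Bool} {t t' : ℕ} : x < n → c < M → t < 4 → t' < 4 → t ≠ t' →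
      Arc M n P (.i x c b t) (.i x c b t')
  | mk {c t : ℕ} : c < M → t < 2 → Arc M n P (.m t) (.k c 0)
  | mo {x c : ℕ} {b : Bool} {t : ℕ} : x < n → c < M → t < 2 →
      (b = true ∨ ∀ s, ¬ P s x c) → Arc M n P (.m t) (.o x c b)
  | ko {x c : ℕ} {s : Bool} {t : ℕ} : t < 2 → P s x c → Arc M n P (.k c t) (.o x c false)
  | im {x c : ℕ} {b : Bool} {t : ℕ} : x < n → c < M → (t = 1 ∨ t = 2) → ¬ P b x c →
      Arc M n P (.i x c b t) (.m 0)
  | ik {x c : ℕ} {b : Bool} {t : ℕ} : (t = 1 ∨ t = 2) → P b x c →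
      Arc M n P (.i x c b t) (.k c 0)
  | oT {x c : ℕ} {b : Bool} : x < n → c < M → Arc M n P (.o x c b) (.i x c b 0)
  | oF {x c : ℕ} : x < n → c < M → Arc M n P (.o x c false) (.i x c true 0)
  | oG {x c : ℕ} : x < n → c + 1 < M → Arc M n P (.o x c true) (.i x (c + 1) false 0)
  | oH {x c : ℕ} : x < n → c + 1 = M → Arc M n P (.o x c true) (.i x 0 false 0)

theorem exists_cross {α : Type} {R : α → α → Prop} (S : α → Prop) {x y : α}
    (h : ReflTransGen R x y) (hx : ¬ S x) (hy : S y) : ∃ a b, ¬ S a ∧ S b ∧ R a b := by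
  induction h with
  | refl => exact absurd hy hx
  | @tail b c _ hbc ih =>
    by_cases hb : S b
    · exact ih hb
    · exact ⟨b, c, hb, hy, hbc⟩

variable {M n : ℕ} {P : Bool → ℕ → ℕ → Prop}

theorem sat_of_pair (hM : 0 < M) (hP : ∀ s x c, P s x c → x < n ∧ c < M)
    (hd : ∀ x c s s', P s x c → P s' x c → s = s') {R₁ R₂ : Nd → Nd → Prop}
    (h₁ : ∀ p q, R₁ p q → Arc M n P p q) (h₂ : ∀ p q, R₂ p q → Arc M n P p q)
    (h₁₂ : ∀ p q, R₁ p q → ¬ R₂ p q) (hout : ∀ p, Vd M n p → ∃ w, R₁ p w)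
    (hstr : ∀ p q, Vd M n p → Vd M n q → ReflTransGen R₂ p q) :
    ∃ τ : ℕ → Bool, ∀ c < M, (∃ x s, P s x c) → ∃ x s, P s x c ∧ τ x = s := by
  -- out-arcs of `o`
  have hoF : ∀ x c, x < n → c < M → R₂ (.o x c false) (.i x c false 0) →
      ¬ R₂ (.o x c false) (.i x c true 0) := by
    intro x c hx hc hT hF
    obtain ⟨w, hw⟩ := hout (.o x c false) (.o hx hc)
    have h3 := h₁ _ _ hw
    cases h3 with
    | oT _ _ => exact h₁₂ _ _ hw hT
    | oF _ _ => exact h₁₂ _ _ hw hF
  have hoG : ∀ x c, x < n → c + 1 < M → R₂ (.o x c true) (.i x c true 0) →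
      ¬ R₂ (.o x c true) (.i x (c + 1) false 0) := by
    intro x c hx hc hT hF
    obtain ⟨w, hw⟩ := hout (.o x c true) (.o hx (by omega))
    have h3 := h₁ _ _ hw
    cases h3 with
    | oT _ _ => exact h₁₂ _ _ hw hT
    | oG _ _ => exact h₁₂ _ _ hw hF
    | oH _ h => omega
  have hoH : ∀ x c, x < n → c + 1 = M → R₂ (.o x c true) (.i x c true 0) →
      ¬ R₂ (.o x c true) (.i x 0 false 0) := by
    intro x c hx hc hT hF
    obtain ⟨w, hw⟩ := hout (.o x c true) (.o hx (by omega))
    have h3 := h₁ _ _ hw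
    cases h3 with
    | oT _ _ => exact h₁₂ _ _ hw hT
    | oG _ h => omega
    | oH _ _ => exact h₁₂ _ _ hw hF
  -- every block is entered
  have hent : ∀ x c b, x < n → c < M → ∃ x' c' b', R₂ (.o x' c' b') (.i x c b 0) := by
    intro x c b hx hc
    obtain ⟨p, q, hp, hq, h⟩ := exists_cross
      (S := fun p => ∃ t, p = Nd.i x c b t) (hstr (.m 0) (.i x c b 0) (.m (by norm_num))
      (.i hx hc (by norm_num))) (by simp) ⟨0, rfl⟩
    obtain ⟨t, rfl⟩ := hq
    have h3 := h₂ _ _ h
    cases h3 with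
    | ii _ _ _ _ _ => exact absurd ⟨_, rfl⟩ hp
    | oT _ _ => exact ⟨_, _, _, h⟩
    | oF _ _ => exact ⟨_, _, _, h⟩
    | oG _ _ => exact ⟨_, _, _, h⟩
    | oH _ _ => exact ⟨_, _, _, h⟩
  have s1 : ∀ x c, x < n → c < M → R₂ (.o x c false) (.i x c false 0) →
      R₂ (.o x c true) (.i x c true 0) := by
    intro x c hx hc hT
    obtain ⟨x', c', b', h⟩ := hent x c true hx hc
    have h3 := h₂ _ _ h
    cases h3 with
    | oT _ _ => exact h
    | oF _ _ => exact absurd h (hoF x c hx hc hT)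
  have s2 : ∀ x c, x < n → c + 1 < M → R₂ (.o x c true) (.i x c true 0) →
      R₂ (.o x (c + 1) false) (.i x (c + 1) false 0) := by
    intro x c hx hc hT
    obtain ⟨x', c', b', h⟩ := hent x (c + 1) false hx hc
    have h3 := h₂ _ _ h
    cases h3 with
    | oT _ _ => exact h
    | oG _ _ => exact absurd h (hoG x c hx hc hT)
  have s3 : ∀ x c, x < n → c + 1 = M → R₂ (.o x c true) (.i x c true 0) →
      R₂ (.o x 0 false) (.i x 0 false 0) := by
    intro x c hx hc hT
    obtain ⟨x', c', b', h⟩ := hent x 0 false hx hM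
    have h3 := h₂ _ _ h
    cases h3 with
    | oT _ _ => exact h
    | oH _ hc' =>
      have : c' = c := by omega
      subst this
      exact absurd h (hoH x c' hx hc hT)
  have s4 : ∀ x c k, x < n → c + k < M → R₂ (.o x c false) (.i x c false 0) →
      R₂ (.o x (c + k) false) (.i x (c + k) false 0) := by
    intro x c k
    induction k with
    | zero => intro _ _ h; exact h
    | succ k ih =>
      intro hx hk h
      exact s2 x (c + k) hx (by omega) (s1 x (c + k) hx (by omega) (ih hx (by omega) h))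
  have s5 : ∀ x c, x < n → c < M → (R₂ (.o x c false) (.i x c false 0) ↔
      R₂ (.o x 0 false) (.i x 0 false 0)) := by
    intro x c hx hc
    constructor
    · intro h
      have h4 := s4 x c (M - 1 - c) hx (by omega) h
      rw [show c + (M - 1 - c) = M - 1 by omega] at h4
      exact s3 x (M - 1) hx (by omega) (s1 x (M - 1) hx (by omega) h4)
    · intro h
      have h4 := s4 x 0 c hx (by omega) h
      simpa using h4
  classical
  refine ⟨fun x => decide (R₂ (.o x 0 false) (.i x 0 false 0)), ?_⟩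
  rintro c hc -
  obtain ⟨p, q, hp, hq, h⟩ := exists_cross
      (S := fun p => ¬ (match p with
        | .m _ => False
        | .k c' _ => c' = c
        | .o x c' b => c' = c ∧ b = false ∧ ∃ s, P s x c
        | .i x c' b _ => c' = c ∧ P b x c)) (hstr (.k c 0) (.m 0) (.k hc (by norm_num))
      (.m (by norm_num))) (by simp) (by simp)
  rw [not_not] at hp
  have h3 := h₂ _ _ h
  cases h3 with
  | mm _ _ _ => exact absurd hp (by simp)
  | kk _ _ _ _ => exact absurd hp hq
  | ii _ _ _ _ _ => exact absurd hp hq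
  | mk _ _ => exact absurd hp (by simp)
  | mo _ _ _ _ => exact absurd hp (by simp)
  | ko _ h' =>
    change _ = c at hp
    subst hp
    exact absurd ⟨rfl, rfl, _, h'⟩ hq
  | im _ _ _ h' =>
    simp only at hp
    rw [hp.1] at h'
    exact absurd hp.2 h'
  | ik _ _ =>
    simp only at hp hq
    exact absurd hp.1 hq
  | @oT x c' b hx _ =>
    simp only at hp hq
    obtain ⟨rfl, rfl, s, hs⟩ := hp
    have h4 : s = true := by
      cases s
      · exact absurd ⟨rfl, hs⟩ hq
      · rfl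
    subst h4
    exact ⟨x, true, hs, decide_eq_true ((s5 x c' hx hc).1 h)⟩
  | @oF x c' hx _ =>
    simp only at hp hq
    obtain ⟨rfl, -, s, hs⟩ := hp
    have h4 : s = false := by
      cases s
      · rfl
      · exact absurd ⟨rfl, hs⟩ hq
    subst h4
    refine ⟨x, false, hs, decide_eq_false fun h5 => ?_⟩
    exact hoF x c' hx hc ((s5 x c' hx hc).2 h5) h
  | oG _ _ =>
    simp at hp
  | oH _ _ =>
    simp at hp

end Pool.Agent.NPC.U19.AS
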