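import Pool.Agent.U19.AS.Defs

/-!
# Antistrong digraphs and the bipartite representation
-/

namespace Pool.Agent.NPC.U19.AS

open Relation

/-- the list is a forward antidirected trail, for a relation -/
def IsTrailR {α : Type} (R : α → α → Prop) (x y : α) (l : List α) : Prop :=
  l.head? = some x ∧ l.getLast? = some y ∧ Even l.length ∧ (arcsOf true l).Nodup ∧
    ∀ e ∈ arcsOf true l, R e.1 e.2

/-- the bipartite representation; the vertex `v` gives `v' = (v, false)` and `v'' = (v, true)` -/
def BG {α : Type} (R : α → α → Prop) : SimpleGraph (α × Bool) where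
  Adj a b := (a.2 = false ∧ b.2 = true ∧ R a.1 b.1) ∨ (a.2 = true ∧ b.2 = false ∧ R b.1 a.1)
  symm := ⟨by
    rintro a b (⟨h1, h2, h3⟩ | ⟨h1, h2, h3⟩)
    · exact Or.inr ⟨h2, h1, h3⟩
    · exact Or.inl ⟨h2, h1, h3⟩⟩
  loopless := ⟨by
    rintro a (⟨h1, h2, h3⟩ | ⟨h1, h2, h3⟩) <;> simp [h1] at h2⟩

variable {α : Type} {R : α → α → Prop}

/-- the edge of the arc -/
def edgeOf (e : α × α) : Sym2 (α × Bool) := s((e.1, false), (e.2, true))

theorem edges_eq {a b : α × Bool} (w : (BG R).Walk a b) :
    (arcsOf (!a.2) (w.support.map Prod.fst)).map edgeOf = w.edges := by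
  induction w with
  | nil => simp [arcsOf]
  | @cons a c b h w ih =>
    have h1 : w.support = c :: w.support.tail := by
      rw [SimpleGraph.Walk.support_eq_cons]
      simp
    rw [SimpleGraph.Walk.support_cons, SimpleGraph.Walk.edges_cons, List.map_cons, h1,
      List.map_cons, arcsOf, ← List.map_cons (f := Prod.fst), ← h1, List.map_cons]
    rcases h with ⟨h2, h3, h4⟩ | ⟨h2, h3, h4⟩
    · rw [h3] at ih
      rw [h2]
      simp only [Bool.not_false, Bool.not_true, if_true] at *
      rw [ih]
      congr 1
      unfold edgeOf
      rw [← h2, ← h3]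
    · rw [h3] at ih
      rw [h2]
      simp only [Bool.not_false, Bool.not_true, Bool.false_eq_true, if_false] at *
      rw [ih]
      congr 1
      unfold edgeOf
      rw [Sym2.eq_swap, ← h2, ← h3]

theorem arcs_rel {a b : α × Bool} (w : (BG R).Walk a b) :
    ∀ e ∈ arcsOf (!a.2) (w.support.map Prod.fst), R e.1 e.2 := by
  induction w with
  | nil => simp [arcsOf]
  | @cons a c b h w ih =>
    have h1 : w.support = c :: w.support.tail := by
      rw [SimpleGraph.Walk.support_eq_cons]
      simp
    rw [SimpleGraph.Walk.support_cons, List.map_cons, h1,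
      List.map_cons, arcsOf, ← List.map_cons (f := Prod.fst), ← h1]
    intro e he
    rw [List.mem_cons] at he
    rcases h with ⟨h2, h3, h4⟩ | ⟨h2, h3, h4⟩
    · rw [h3] at ih
      rw [h2] at he
      simp only [Bool.not_false, Bool.not_true, if_true] at *
      rcases he with rfl | he
      · exact h4
      · exact ih e he
    · rw [h3] at ih
      rw [h2] at he
      simp only [Bool.not_false, Bool.not_true, Bool.false_eq_true, if_false] at *
      rcases he with rfl | he
      · exact h4
      · exact ih e he

theorem walk_parity {a b : α × Bool} (w : (BG R).Walk a b) :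
    Even w.support.length ↔ a.2 ≠ b.2 := by
  induction w with
  | nil => simp
  | @cons a c b h w ih =>
    rw [SimpleGraph.Walk.support_cons, List.length_cons, Nat.even_add_one, ih]
    have : a.2 ≠ c.2 := by
      rcases h with ⟨h2, h3, _⟩ | ⟨h2, h3, _⟩ <;> simp [h2, h3]
    cases h1 : a.2 <;> cases h2 : b.2 <;> cases h3 : c.2 <;> simp_all

theorem head_getLast {a b : α × Bool} (w : (BG R).Walk a b) :
    (w.support.map Prod.fst).head? = some a.1 ∧ (w.support.map Prod.fst).getLast? = some b.1 := by
  constructor
  · rw [List.head?_map]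
    have : w.support.head? = some a := by
      cases w <;> simp
    rw [this]
    rfl
  · rw [List.getLast?_map]
    have : w.support.getLast? = some b := by
      rw [List.getLast?_eq_some_getLast (by simp)]
      simp
    rw [this]
    rfl

theorem exists_trail {x y : α} (h : (BG R).Reachable (x, false) (y, true)) :
    ∃ l, IsTrailR R x y l := by
  classical
  obtain ⟨w⟩ := h
  obtain ⟨p, hp⟩ := w.toPath
  refine ⟨p.support.map Prod.fst, (head_getLast p).1, (head_getLast p).2, ?_, ?_, ?_⟩
  · rw [List.length_map, walk_parity]
    simp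
  · have h1 := edges_eq p
    have h2 := hp.isTrail.edges_nodup
    rw [← h1] at h2
    exact h2.of_map _
  · exact arcs_rel p

theorem reachable_of_arcs : ∀ (l : List α) (x y : α) (b : Bool),
    (∀ e ∈ arcsOf b (x :: l), R e.1 e.2) → (x :: l).getLast? = some y →
    (BG R).Reachable (x, !b) (y, if Even l.length then !b else b)
  | [], x, y, b, _, h => by
    simp at h
    subst h
    simp
  | w :: l, x, y, b, hR, h => by
    have h1 : (w :: l).getLast? = some y := by simpa using h
    have h2 := reachable_of_arcs l w y (!b) (fun e he => hR e (by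
      rw [arcsOf, List.mem_cons]; exact Or.inr he)) h1
    have h3 : (BG R).Adj (x, !b) (w, b) := by
      have h4 := hR _ (by rw [arcsOf, List.mem_cons]; exact Or.inl rfl)
      cases b
      · exact Or.inr ⟨rfl, rfl, h4⟩
      · exact Or.inl ⟨rfl, rfl, h4⟩
    have h5 : (BG R).Reachable (x, !b) (w, b) := h3.reachable
    rw [Bool.not_not] at h2
    have h6 := h5.trans h2
    have h7 : (if Even (w :: l).length then !b else b) = if Even l.length then b else !b := by
      by_cases h8 : Even l.length <;> simp [Nat.even_add_one, h8]
    rw [h7]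
    exact h6

theorem reachable_of_trail {x y : α} {l : List α} (h : IsTrailR R x y l) :
    (BG R).Reachable (x, false) (y, true) := by
  obtain ⟨h1, h2, h3, _, h5⟩ := h
  cases l with
  | nil => simp at h1
  | cons z l =>
    have : z = x := by simpa using h1
    subst this
    have h6 := reachable_of_arcs l z y true h5 h2
    rw [List.length_cons, Nat.even_add_one] at h3
    simpa [h3] using h6

end Pool.Agent.NPC.U19.AS
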