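import Pool.Agent.U19.AS.Abs
import Pool.Agent.U19.AS.Trail

/-!
# A satisfying assignment gives the two subdigraphs
-/

namespace Pool.Agent.NPC.U19.AS

open Relation

/-- the arcs of the strong subdigraph -/
inductive S2 (M n : ℕ) (P : Bool → ℕ → ℕ → Prop) (τ : ℕ → Bool) : Nd → Nd → Prop
  | mm {t t' : ℕ} : t < 4 → t' = (t + 1) % 4 → S2 M n P τ (.m t) (.m t')
  | kk {c t t' : ℕ} : c < M → t < 4 → t' = (t + 1) % 4 → S2 M n P τ (.k c t) (.k c t')
  | ii {x c : ℕ} {b : Bool} {t t' : ℕ} : x < n → c < M → t < 4 → t' = (t + 1) % 4 →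
      S2 M n P τ (.i x c b t) (.i x c b t')
  | mk {c : ℕ} : c < M → S2 M n P τ (.m 1) (.k c 0)
  | mo {x c : ℕ} {b : Bool} : x < n → c < M →
      (b = true ∨ ∀ s, ¬ P s x c) → S2 M n P τ (.m 1) (.o x c b)
  | ko {x c : ℕ} {s : Bool} : P s x c → S2 M n P τ (.k c 1) (.o x c false)
  | im {x c : ℕ} {b : Bool} : x < n → c < M → ¬ P b x c →
      S2 M n P τ (.i x c b 2) (.m 0)
  | ik {x c : ℕ} {b : Bool} : P b x c → S2 M n P τ (.i x c b 2) (.k c 0)
  | oT {x c : ℕ} {b : Bool} : x < n → c < M → τ x = true → S2 M n P τ (.o x c b) (.i x c b 0)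
  | oF {x c : ℕ} : x < n → c < M → τ x = false → S2 M n P τ (.o x c false) (.i x c true 0)
  | oG {x c : ℕ} : x < n → c + 1 < M → τ x = false →
      S2 M n P τ (.o x c true) (.i x (c + 1) false 0)
  | oH {x c : ℕ} : x < n → c + 1 = M → τ x = false → S2 M n P τ (.o x c true) (.i x 0 false 0)

variable {M n : ℕ} {P : Bool → ℕ → ℕ → Prop} {τ : ℕ → Bool}

theorem arc_of_s2 {p q : Nd} (h : S2 M n P τ p q) : Arc M n P p q := by
  cases h with
  | mm h1 h2 => exact .mm h1 (by omega) (by omega)
  | kk h0 h1 h2 => exact .kk h0 h1 (by omega) (by omega)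
  | ii h0 h0' h1 h2 => exact .ii h0 h0' h1 (by omega) (by omega)
  | mk h => exact .mk h (by norm_num)
  | mo h1 h2 h3 => exact .mo h1 h2 (by norm_num) h3
  | ko h => exact .ko (by norm_num) h
  | im h1 h2 h3 => exact .im h1 h2 (Or.inr rfl) h3
  | ik h => exact .ik (Or.inr rfl) h
  | oT h1 h2 _ => exact .oT h1 h2
  | oF h1 h2 _ => exact .oF h1 h2
  | oG h1 h2 _ => exact .oG h1 h2
  | oH h1 h2 _ => exact .oH h1 h2

/-- the arcs of the antistrong subdigraph -/
def S1 (M n : ℕ) (P : Bool → ℕ → ℕ → Prop) (τ : ℕ → Bool) (p q : Nd) : Prop :=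
  Arc M n P p q ∧ ¬ S2 M n P τ p q

theorem m_cyc {t : ℕ} (ht : t < 4) : ReflTransGen (S2 M n P τ) (.m 0) (.m t) ∧
    ReflTransGen (S2 M n P τ) (.m t) (.m 0) := by
  have h01 : S2 M n P τ (.m 0) (.m 1) := .mm (by norm_num) rfl
  have h12 : S2 M n P τ (.m 1) (.m 2) := .mm (by norm_num) rfl
  have h23 : S2 M n P τ (.m 2) (.m 3) := .mm (by norm_num) rfl
  have h30 : S2 M n P τ (.m 3) (.m 0) := .mm (by norm_num) rfl
  interval_cases t
  · exact ⟨.refl, .refl⟩
  · exact ⟨.single h01, .tail (.tail (.single h12) h23) h30⟩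
  · exact ⟨.tail (.single h01) h12, .tail (.single h23) h30⟩
  · exact ⟨.tail (.tail (.single h01) h12) h23, .single h30⟩

theorem k_cyc {c t : ℕ} (hc : c < M) (ht : t < 4) :
    ReflTransGen (S2 M n P τ) (.k c 0) (.k c t) ∧
    ReflTransGen (S2 M n P τ) (.k c t) (.k c 0) := by
  have h01 : S2 M n P τ (.k c 0) (.k c 1) := .kk hc (by norm_num) rfl
  have h12 : S2 M n P τ (.k c 1) (.k c 2) := .kk hc (by norm_num) rfl
  have h23 : S2 M n P τ (.k c 2) (.k c 3) := .kk hc (by norm_num) rfl
  have h30 : S2 M n P τ (.k c 3) (.k c 0) := .kk hc (by norm_num) rfl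
  interval_cases t
  · exact ⟨.refl, .refl⟩
  · exact ⟨.single h01, .tail (.tail (.single h12) h23) h30⟩
  · exact ⟨.tail (.single h01) h12, .tail (.single h23) h30⟩
  · exact ⟨.tail (.tail (.single h01) h12) h23, .single h30⟩

theorem i_cyc {x c t : ℕ} {b : Bool} (hx : x < n) (hc : c < M) (ht : t < 4) :
    ReflTransGen (S2 M n P τ) (.i x c b 0) (.i x c b t) ∧
    ReflTransGen (S2 M n P τ) (.i x c b t) (.i x c b 0) := by
  have h01 : S2 M n P τ (.i x c b 0) (.i x c b 1) := .ii hx hc (by norm_num) rfl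
  have h12 : S2 M n P τ (.i x c b 1) (.i x c b 2) := .ii hx hc (by norm_num) rfl
  have h23 : S2 M n P τ (.i x c b 2) (.i x c b 3) := .ii hx hc (by norm_num) rfl
  have h30 : S2 M n P τ (.i x c b 3) (.i x c b 0) := .ii hx hc (by norm_num) rfl
  interval_cases t
  · exact ⟨.refl, .refl⟩
  · exact ⟨.single h01, .tail (.tail (.single h12) h23) h30⟩
  · exact ⟨.tail (.single h01) h12, .tail (.single h23) h30⟩
  · exact ⟨.tail (.tail (.single h01) h12) h23, .single h30⟩

theorem m_to_k {c : ℕ} (hc : c < M) : ReflTransGen (S2 M n P τ) (.m 0) (.k c 0) :=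
  (m_cyc (by norm_num)).1.trans (.single (.mk hc))

theorem m_to_o {x c : ℕ} {b : Bool} (hx : x < n) (hc : c < M) :
    ReflTransGen (S2 M n P τ) (.m 0) (.o x c b) := by
  by_cases h : b = true ∨ ∀ s, ¬ P s x c
  · exact (m_cyc (by norm_num)).1.trans (.single (.mo hx hc h))
  · push Not at h
    obtain ⟨h1, s, hs⟩ := h
    have hb : b = false := by simpa using h1
    subst hb
    exact (m_to_k hc).trans ((k_cyc hc (by norm_num)).1.trans (.single (.ko hs)))

theorem m_to_i {x c : ℕ} {b : Bool} (hx : x < n) (hc : c < M) :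
    ReflTransGen (S2 M n P τ) (.m 0) (.i x c b 0) := by
  cases hτ : τ x
  · cases b
    · rcases Nat.eq_zero_or_pos c with rfl | h0
      · exact (m_to_o hx (show M - 1 < M by omega)).trans (.single (.oH hx (by omega) hτ))
      · obtain ⟨d, rfl⟩ : ∃ d, c = d + 1 := ⟨c - 1, by omega⟩
        exact (m_to_o hx (show d < M by omega)).trans (.single (.oG hx (by omega) hτ))
    · exact (m_to_o hx hc).trans (.single (.oF hx hc hτ))
  · exact (m_to_o hx hc).trans (.single (.oT hx hc hτ))

theorem i_to {x c : ℕ} {b : Bool} (hx : x < n) (hc : c < M)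
    (hk : ReflTransGen (S2 M n P τ) (.k c 0) (.m 0)) :
    ReflTransGen (S2 M n P τ) (.i x c b 0) (.m 0) := by
  have h1 : ReflTransGen (S2 M n P τ) (.i x c b 0) (.i x c b 2) := (i_cyc hx hc (by norm_num)).1
  by_cases hP : P b x c
  · exact (h1.tail (.ik hP)).trans hk
  · exact h1.tail (.im hx hc hP)

theorem k_to_m (hP : ∀ s x c, P s x c → x < n ∧ c < M)
    (hd : ∀ x c s s', P s x c → P s' x c → s = s')
    (hτ : ∀ c < M, ∃ x s, P s x c ∧ τ x = s) {c : ℕ} (hc : c < M) :
    ReflTransGen (S2 M n P τ) (.k c 0) (.m 0) := by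
  obtain ⟨x, s, h1, h2⟩ := hτ c hc
  have hx := (hP _ _ _ h1).1
  have h3 : ReflTransGen (S2 M n P τ) (.k c 0) (.o x c false) :=
    (k_cyc hc (by norm_num)).1.trans (.single (.ko h1))
  cases s
  · have h4 : ¬ P true x c := fun h => by simpa using hd _ _ _ _ h1 h
    exact ((h3.tail (.oF hx hc h2)).trans (i_cyc hx hc (by norm_num)).1).tail (.im hx hc h4)
  · have h4 : ¬ P false x c := fun h => by simpa using hd _ _ _ _ h1 h
    exact ((h3.tail (.oT hx hc h2)).trans (i_cyc hx hc (by norm_num)).1).tail (.im hx hc h4)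

theorem strong_s2 (hP : ∀ s x c, P s x c → x < n ∧ c < M)
    (hd : ∀ x c s s', P s x c → P s' x c → s = s')
    (hτ : ∀ c < M, ∃ x s, P s x c ∧ τ x = s) {p q : Nd} (hp : Vd M n p) (hq : Vd M n q) :
    ReflTransGen (S2 M n P τ) p q := by
  have hk : ∀ c < M, ReflTransGen (S2 M n P τ) (.k c 0) (.m 0) := fun c hc => k_to_m hP hd hτ hc
  have h1 : ReflTransGen (S2 M n P τ) p (.m 0) := by
    cases hp with
    | m h => exact (m_cyc h).2
    | k h h' => exact (k_cyc h h').2.trans (hk _ h)
    | @o x c b h h' =>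
      cases hx : τ x
      · cases b
        · exact .trans (.single (.oF h h' hx)) (i_to h h' (hk _ h'))
        · by_cases h2 : c + 1 = M
          · exact .trans (.single (.oH h h2 hx)) (i_to h (by omega) (hk _ (by omega)))
          · exact .trans (.single (.oG h (by omega) hx)) (i_to h (by omega) (hk _ (by omega)))
      · exact .trans (.single (.oT h h' hx)) (i_to h h' (hk _ h'))
    | i h h' h'' => exact (i_cyc h h' h'').2.trans (i_to h h' (hk _ h'))
  have h2 : ReflTransGen (S2 M n P τ) (.m 0) q := by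
    cases hq with
    | m h => exact (m_cyc h).1
    | k h h' => exact (m_to_k h).trans (k_cyc h h').1
    | o h h' => exact m_to_o h h'
    | i h h' h'' => exact (m_to_i h h').trans (i_cyc h h' h'').1
  exact h1.trans h2

/-! ### The antistrong subdigraph -/

theorem adj_s1 {p q : Nd} (h : S1 M n P τ p q) : (BG (S1 M n P τ)).Adj (p, false) (q, true) :=
  Or.inl ⟨rfl, rfl, h⟩

/-- the bipartite representation of the digraph with the vertices `f 0, f 1, f 2, f 3` and all arcs
except for `f t → f (t + 1)` is connected -/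
theorem block {α : Type} {R : α → α → Prop} (f : ℕ → α)
    (h : ∀ t t', t < 4 → t' < 4 → t ≠ t' → t' ≠ (t + 1) % 4 → R (f t) (f t')) {t : ℕ} (ht : t < 4)
    (b : Bool) : (BG R).Reachable (f 0, true) (f t, b) := by
  have e : ∀ t t', t < 4 → t' < 4 → t ≠ t' → t' ≠ (t + 1) % 4 →
      (BG R).Adj (f t, false) (f t', true) := fun t t' h1 h2 h3 h4 => Or.inl ⟨rfl, rfl, h t t' h1 h2 h3 h4⟩
  have a02 := (e 0 2 (by norm_num) (by norm_num) (by norm_num) (by norm_num)).reachable
  have a03 := (e 0 3 (by norm_num) (by norm_num) (by norm_num) (by norm_num)).reachable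
  have a10 := (e 1 0 (by norm_num) (by norm_num) (by norm_num) (by norm_num)).reachable
  have a13 := (e 1 3 (by norm_num) (by norm_num) (by norm_num) (by norm_num)).reachable
  have a20 := (e 2 0 (by norm_num) (by norm_num) (by norm_num) (by norm_num)).reachable
  have a21 := (e 2 1 (by norm_num) (by norm_num) (by norm_num) (by norm_num)).reachable
  have a31 := (e 3 1 (by norm_num) (by norm_num) (by norm_num) (by norm_num)).reachable
  have a32 := (e 3 2 (by norm_num) (by norm_num) (by norm_num) (by norm_num)).reachable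
  have b1 := a10.symm
  have b2 := a20.symm
  have c3 := b1.trans a13
  have c1 := b2.trans a21
  have b0 := c3.trans a03.symm
  have c2 := b0.trans a02
  have b3 := c2.trans a32.symm
  interval_cases t <;> cases b
  · exact b0
  · exact SimpleGraph.Reachable.refl _
  · exact b1
  · exact c1
  · exact b2
  · exact c2
  · exact b3
  · exact c3

theorem conn_s1 (hP : ∀ s x c, P s x c → x < n ∧ c < M) {p : Nd} (hp : Vd M n p) (b : Bool) :
    (BG (S1 M n P τ)).Reachable (Nd.m 0, true) (p, b) := by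
  have hm : ∀ t < 4, ∀ b, (BG (S1 M n P τ)).Reachable (Nd.m 0, true) (Nd.m t, b) := by
    intro t ht b
    refine block (fun t => Nd.m t) ?_ ht b
    intro t t' h1 h2 h3 h4
    refine ⟨.mm h1 h2 h3, fun h => ?_⟩
    cases h with
    | mm _ h' => exact h4 h'
  have hk0 : ∀ c < M, (BG (S1 M n P τ)).Reachable (Nd.m 0, true) (Nd.k c 0, true) := by
    intro c hc
    refine (hm 0 (by norm_num) false).trans (adj_s1 ⟨.mk hc (by norm_num), fun h => ?_⟩).reachable
    cases h
  have hk : ∀ c < M, ∀ t < 4, ∀ b, (BG (S1 M n P τ)).Reachable (Nd.m 0, true) (Nd.k c t, b) := by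
    intro c hc t ht b
    refine (hk0 c hc).trans (block (fun t => Nd.k c t) ?_ ht b)
    intro t t' h1 h2 h3 h4
    refine ⟨.kk hc h1 h2 h3, fun h => ?_⟩
    cases h with
    | kk _ _ h' => exact h4 h'
  have hi0 : ∀ x < n, ∀ c < M, ∀ b, (BG (S1 M n P τ)).Reachable (Nd.m 0, true) (Nd.i x c b 1, false) := by
    intro x hx c hc b
    by_cases h : P b x c
    · refine (hk0 c hc).trans (adj_s1 ⟨.ik (Or.inl rfl) h, fun h => ?_⟩).symm.reachable
      cases h
    · refine (adj_s1 ⟨.im hx hc (Or.inl rfl) h, fun h => ?_⟩).symm.reachable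
      cases h
  have hi : ∀ x < n, ∀ c < M, ∀ b', ∀ t < 4, ∀ b,
      (BG (S1 M n P τ)).Reachable (Nd.m 0, true) (Nd.i x c b' t, b) := by
    intro x hx c hc b' t ht b
    have hb : ∀ t < 4, ∀ b, (BG (S1 M n P τ)).Reachable (Nd.i x c b' 0, true) (Nd.i x c b' t, b) := by
      intro t ht b
      refine block (fun t => Nd.i x c b' t) ?_ ht b
      intro t t' h1 h2 h3 h4
      refine ⟨.ii hx hc h1 h2 h3, fun h => ?_⟩
      cases h with
      | ii _ _ _ h' => exact h4 h'
    exact ((hi0 x hx c hc b').trans (hb 1 (by norm_num) false).symm).trans (hb t ht b)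
  cases hp with
  | m h => exact hm _ h b
  | k h h' => exact hk _ h _ h' b
  | i h h' h'' => exact hi _ h _ h' _ _ h'' b
  | @o x c b' h h' =>
    cases b
    · -- the vertex `o'`
      cases hx : τ x
      · refine (hi x h c h' b' 0 (by norm_num) true).trans
          (adj_s1 ⟨.oT h h', fun h => ?_⟩).symm.reachable
        cases h with
        | oT _ _ h => rw [hx] at h; simp at h
      · cases b'
        · refine (hi x h c h' true 0 (by norm_num) true).trans
            (adj_s1 ⟨.oF h h', fun h => ?_⟩).symm.reachable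
          cases h with
          | oF _ _ h => rw [hx] at h; simp at h
        · by_cases h2 : c + 1 = M
          · refine (hi x h 0 (by omega) false 0 (by norm_num) true).trans
              (adj_s1 ⟨.oH h h2, fun h => ?_⟩).symm.reachable
            cases h with
            | oH _ _ h => rw [hx] at h; simp at h
          · refine (hi x h (c + 1) (by omega) false 0 (by norm_num) true).trans
              (adj_s1 ⟨.oG h (by omega), fun h => ?_⟩).symm.reachable
            cases h with
            | oG _ _ h => rw [hx] at h; simp at h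
    · -- the vertex `o''`
      by_cases h2 : b' = true ∨ ∀ s, ¬ P s x c
      · refine (hm 0 (by norm_num) false).trans
          (adj_s1 ⟨.mo h h' (by norm_num) h2, fun h => ?_⟩).reachable
        cases h
      · push Not at h2
        obtain ⟨h1, s, hs⟩ := h2
        have hb : b' = false := by simpa using h1
        subst hb
        refine (hk c h' 0 (by norm_num) false).trans
          (adj_s1 ⟨.ko (by norm_num) hs, fun h => ?_⟩).reachable
        cases h

end Pool.Agent.NPC.U19.AS
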