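import Pool.Agent.U19.AS.Red

/-!
# Correctness of the reduction
-/

namespace Pool.Agent.NPC.U19.AS

open Relation
open Pool.Agent.H622R2 (ddup mem_ddup ddup_nodup ddup_poly)
open Pool.Agent.NPC.U19.TD (Cl InCl sg sg_inj inCl_lt sat_iff')

/-- the reduction -/
def red (φ : List Cl) : Inst := (ddup (vs φ), ddup (es φ))

attribute [local irreducible] vs es nm ddup

variable {φ : List Cl}

theorem arc_vd {M n : ℕ} {P : Bool → ℕ → ℕ → Prop} (hM : 0 < M)
    (hP : ∀ s x c, P s x c → x < n ∧ c < M) (p q : Nd) (h : Arc M n P p q) :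
    Vd M n p ∧ Vd M n q := by
  cases h with
  | mm h1 h2 _ => exact ⟨.m h1, .m h2⟩
  | kk h0 h1 h2 _ => exact ⟨.k h0 h1, .k h0 h2⟩
  | ii h0 h0' h1 h2 _ => exact ⟨.i h0 h0' h1, .i h0 h0' h2⟩
  | mk h1 h2 => exact ⟨.m (by omega), .k h1 (by norm_num)⟩
  | mo h1 h2 h3 _ => exact ⟨.m (by omega), .o h1 h2⟩
  | ko h1 h2 => exact ⟨.k (hP _ _ _ h2).2 (by omega), .o (hP _ _ _ h2).1 (hP _ _ _ h2).2⟩
  | im h1 h2 h3 _ => exact ⟨.i h1 h2 (by omega), .m (by norm_num)⟩
  | ik h1 h2 => exact ⟨.i (hP _ _ _ h2).1 (hP _ _ _ h2).2 (by omega), .k (hP _ _ _ h2).2 (by norm_num)⟩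
  | oT h1 h2 => exact ⟨.o h1 h2, .i h1 h2 (by norm_num)⟩
  | oF h1 h2 => exact ⟨.o h1 h2, .i h1 h2 (by norm_num)⟩
  | oG h1 h2 => exact ⟨.o h1 (by omega), .i h1 (by omega) (by norm_num)⟩
  | oH h1 h2 => exact ⟨.o h1 (by omega), .i h1 (by omega) (by norm_num)⟩

theorem arc_ne {M n : ℕ} {P : Bool → ℕ → ℕ → Prop} {p q : Nd} (h : Arc M n P p q) : p ≠ q := by
  cases h <;> simp_all

theorem isInst_red (hb : Bounded3 φ) (hφ : φ ≠ []) : IsInst (red φ) := by
  have hm := List.length_pos_iff.2 hφ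
  refine ⟨ddup_nodup _, ddup_nodup _, ?_⟩
  intro e he
  rw [red, mem_ddup] at he
  obtain ⟨p, q, h, rfl⟩ := es_arc he
  have h1 := arc_vd hm (lt_bound hb) p q h
  rw [red, mem_ddup, mem_ddup, mem_vs, mem_vs]
  refine ⟨⟨p, h1.1, rfl⟩, ⟨q, h1.2, rfl⟩, ?_⟩
  intro h2
  exact arc_ne h (cod_inj h2)

theorem lt_unique (hd : Distinct3 φ) (x c : ℕ) (s s' : Bool) (h : Lt φ s x c) (h' : Lt φ s' x c) :
    s = s' := by
  obtain ⟨d, h1, h2⟩ := h
  obtain ⟨d', h3, h4⟩ := h'
  rw [h1] at h3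
  have h5 : d = d' := by simpa using h3
  subst h5
  have h6 := hd d (List.mem_of_getElem? h1)
  have e1 : ∀ l : Lit ℕ, ∀ b : Bool, (b, x) = l → b = l.1 ∧ x = l.2 := by
    intro l b h
    rw [← h]
    exact ⟨rfl, rfl⟩
  rcases h2 with h2 | h2 | h2 <;> rcases h4 with h4 | h4 | h4 <;>
    (have a1 := e1 _ _ h2; have a2 := e1 _ _ h4) <;>
    first
    | exact absurd (a1.2.symm.trans a2.2) h6.1
    | exact absurd (a1.2.symm.trans a2.2) h6.2.1
    | exact absurd (a1.2.symm.trans a2.2) h6.2.2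
    | exact absurd (a2.2.symm.trans a1.2) h6.1
    | exact absurd (a2.2.symm.trans a1.2) h6.2.1
    | exact absurd (a2.2.symm.trans a1.2) h6.2.2
    | (rw [a1.1, a2.1])

theorem arcsOf_map {α β : Type} (f : α → β) : ∀ (b : Bool) (l : List α),
    arcsOf b (l.map f) = (arcsOf b l).map (Prod.map f f)
  | _, [] => rfl
  | _, [_] => rfl
  | b, v :: w :: l => by
    rw [List.map_cons, List.map_cons, arcsOf, ← List.map_cons, arcsOf_map f (!b) (w :: l), arcsOf,
      List.map_cons]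
    cases b <;> rfl

theorem red_correct (h3 : Distinct3 φ) (hb : Bounded3 φ) (hφ : φ ≠ []) :
    SAT3 φ ↔ HasPair (red φ) := by
  have hm := List.length_pos_iff.2 hφ
  set M := φ.length with hM
  have hV : ∀ p, Vd M (3 * M) p → cod p ∈ (red φ).1 := by
    intro p hp
    rw [red, mem_ddup, mem_vs]
    exact ⟨p, hp, rfl⟩
  have hA : ∀ z, z ∈ (red φ).2 ↔ ∃ p q, Arc M (3 * M) (Lt φ) p q ∧ z = (cod p, cod q) := by
    intro z
    rw [red, mem_ddup]
    constructor
    · exact es_arc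
    · rintro ⟨p, q, h, rfl⟩
      exact arc_es hb h
  have hA' : ∀ p q, (cod p, cod q) ∈ (red φ).2 ↔ Arc M (3 * M) (Lt φ) p q := by
    intro p q
    rw [hA]
    constructor
    · rintro ⟨p', q', h, h'⟩
      simp only [Prod.mk.injEq] at h'
      rw [cod_inj h'.1, cod_inj h'.2]
      exact h
    · exact fun h => ⟨p, q, h, rfl⟩
  unfold SAT3 Sat3V
  simp only [sat_iff']
  constructor
  · rintro ⟨τ, hτ⟩
    have hτ' : ∀ c < M, ∃ x s, Lt φ s x c ∧ τ x = s := by
      intro c hc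
      have hd : φ[c]? = some φ[c] := List.getElem?_eq_getElem hc
      obtain ⟨x, s, h1, h2⟩ := hτ c _ hd
      exact ⟨x, s, ⟨_, hd, h1⟩, h2⟩
    classical
    let dec : (Nd → Nd → Prop) → List (ℕ × ℕ) := fun R =>
      (red φ).2.filter (fun z => decide (∃ p q, R p q ∧ z = (cod p, cod q)))
    have hdec : ∀ R : Nd → Nd → Prop, (∀ p q, R p q → Arc M (3 * M) (Lt φ) p q) → ∀ p q,
        (cod p, cod q) ∈ dec R ↔ R p q := by
      intro R hR p q
      simp only [dec, List.mem_filter, decide_eq_true_eq]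
      constructor
      · rintro ⟨-, p', q', h, h'⟩
        simp only [Prod.mk.injEq] at h'
        rw [cod_inj h'.1, cod_inj h'.2]
        exact h
      · exact fun h => ⟨(hA' p q).2 (hR p q h), p, q, h, rfl⟩
    have h1 := hdec (S1 M (3 * M) (Lt φ) τ) (fun p q h => h.1)
    have h2 := hdec (S2 M (3 * M) (Lt φ) τ) (fun p q h => arc_of_s2 h)
    refine ⟨dec (S1 M (3 * M) (Lt φ) τ), dec (S2 M (3 * M) (Lt φ) τ),
      fun e he => List.mem_of_mem_filter he, fun e he => List.mem_of_mem_filter he, ?_, ⟨?_, ?_⟩, ?_⟩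
    · intro e he he'
      simp only [dec, List.mem_filter, decide_eq_true_eq] at he he'
      obtain ⟨-, p, q, h3, rfl⟩ := he
      obtain ⟨-, p', q', h4, h5⟩ := he'
      simp only [Prod.mk.injEq] at h5
      rw [← cod_inj h5.1, ← cod_inj h5.2] at h4
      exact h3.2 h4
    · have h5 : ([cod (.m 0), cod (.m 1), cod (.m 2)] : List ℕ).Nodup := by
        simp [cod, nm_inj]
      have h6 : ([cod (.m 0), cod (.m 1), cod (.m 2)] : List ℕ) ⊆ (red φ).1 := by
        intro z hz
        simp only [List.mem_cons, List.not_mem_nil, or_false] at hz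
        rcases hz with rfl | rfl | rfl
        · exact hV _ (.m (by norm_num))
        · exact hV _ (.m (by norm_num))
        · exact hV _ (.m (by norm_num))
      exact (h5.subperm h6).length_le
    · intro z hz z' hz' _
      rw [red, mem_ddup, mem_vs] at hz hz'
      obtain ⟨p, hp, rfl⟩ := hz
      obtain ⟨q, hq, rfl⟩ := hz'
      obtain ⟨l, a1, a2, a3, a4, a5⟩ := exists_trail
        ((conn_s1 (τ := τ) (lt_bound hb) hp false).symm.trans (conn_s1 (lt_bound hb) hq true))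
      refine ⟨l.map cod, ?_, ?_, by simpa using a3, ?_, ?_⟩
      · rw [List.head?_map, a1]
        rfl
      · rw [List.getLast?_map, a2]
        rfl
      · rw [arcsOf_map]
        exact a4.map (cod_inj.prodMap cod_inj)
      · intro e he
        rw [arcsOf_map, List.mem_map] at he
        obtain ⟨e', he', rfl⟩ := he
        exact (h1 _ _).2 (a5 e' he')
    · intro z hz z' hz'
      rw [red, mem_ddup, mem_vs] at hz hz'
      obtain ⟨p, hp, rfl⟩ := hz
      obtain ⟨q, hq, rfl⟩ := hz'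
      have h5 := strong_s2 (lt_bound hb) (lt_unique h3) hτ' hp hq
      exact h5.lift cod (fun a b h => (h2 a b).2 h)
  · rintro ⟨A₁, A₂, b1, b2, b3, b4, b5⟩
    have hout : ∀ p, Vd M (3 * M) p → ∃ w, (cod p, cod w) ∈ A₁ := by
      intro p hp
      obtain ⟨q, hq, hpq⟩ : ∃ q, Vd M (3 * M) q ∧ p ≠ q := by
        by_cases h : p = .m 0
        · exact ⟨.m 1, .m (by norm_num), by rw [h]; simp⟩
        · exact ⟨.m 0, .m (by norm_num), h⟩
      obtain ⟨l, a1, a2, a3, a4, a5⟩ := b4.2 _ (hV p hp) _ (hV q hq) (fun h => hpq (cod_inj h))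
      cases l with
      | nil => simp at a1
      | cons z l =>
        cases l with
        | nil => simp at a3
        | cons y l =>
          have hz : z = cod p := by simpa using a1
          subst hz
          have h5 := a5 (cod p, y) (by rw [arcsOf]; simp)
          obtain ⟨p', q', _, h6⟩ := (hA _).1 (b1 _ h5)
          simp only [Prod.mk.injEq] at h6
          rw [h6.2] at h5
          exact ⟨q', h5⟩
    have hstr : ∀ p q, Vd M (3 * M) p → Vd M (3 * M) q →
        ReflTransGen (fun p q => (cod p, cod q) ∈ A₂) p q := by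
      intro p q hp hq
      have h5 := b5 _ (hV p hp) _ (hV q hq)
      have h6 : ∀ z, ReflTransGen (fun a b => (a, b) ∈ A₂) (cod p) z →
          ∃ w, z = cod w ∧ ReflTransGen (fun a b => (cod a, cod b) ∈ A₂) p w := by
        intro z hz
        induction hz with
        | refl => exact ⟨p, rfl, .refl⟩
        | @tail b c _ hbc ih =>
          obtain ⟨w, rfl, hw⟩ := ih
          obtain ⟨p', q', _, h6⟩ := (hA _).1 (b2 _ hbc)
          simp only [Prod.mk.injEq] at h6
          rw [h6.2] at hbc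
          exact ⟨q', h6.2, hw.tail hbc⟩
      obtain ⟨w, h7, h8⟩ := h6 _ h5
      rw [cod_inj h7]
      exact h8
    obtain ⟨τ, hτ⟩ := sat_of_pair (M := M) (n := 3 * M) (P := Lt φ) hm (lt_bound hb) (lt_unique h3)
      (R₁ := fun p q => (cod p, cod q) ∈ A₁) (R₂ := fun p q => (cod p, cod q) ∈ A₂)
      (fun p q h => (hA' p q).1 (b1 _ h)) (fun p q h => (hA' p q).1 (b2 _ h))
      (fun p q h => b3 _ h) hout hstr
    refine ⟨τ, ?_⟩
    intro j d hd
    have hj := (List.getElem?_eq_some_iff.1 hd).1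
    obtain ⟨x, s, ⟨d', h1, h2⟩, h3⟩ := hτ j hj ⟨d.1.2, d.1.1, d, hd, Or.inl rfl⟩
    rw [hd] at h1
    have h4 : d = d' := by simpa using h1
    rw [← h4] at h2
    exact ⟨x, s, h2, h3⟩

end Pool.Agent.NPC.U19.AS
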