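import Pool.Agent.NPC.Classes

/-!
# Arc-disjoint antistrong and strong spanning subdigraphs
-/

namespace Pool.Agent.NPC.U19.AS

/-- the arcs used by the walk `l` whose arcs are alternately forward and backward; the first one is
forward if the Boolean value is `true` and backward otherwise -/
def arcsOf {α : Type} : Bool → List α → List (α × α)
  | b, v :: w :: l => (if b then (v, w) else (w, v)) :: arcsOf (!b) (w :: l)
  | _, _ => []

/-- `l` is a forward antidirected trail from `x` to `y` in the digraph with the arcs `B`: a walk whose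
arcs alternate between forward and backward, no arc is repeated, the first and the last arcs are forward
(so the number of the arcs is odd, and the number of the vertices is even) -/
def IsTrail {α : Type} (B : List (α × α)) (x y : α) (l : List α) : Prop :=
  l.head? = some x ∧ l.getLast? = some y ∧ Even l.length ∧ (arcsOf true l).Nodup ∧
    ∀ e ∈ arcsOf true l, e ∈ B

/-- the digraph is antistrong -/
def Antistrong {α : Type} (V : List α) (B : List (α × α)) : Prop :=
  3 ≤ V.length ∧ ∀ x ∈ V, ∀ y ∈ V, x ≠ y → ∃ l, IsTrail B x y l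

/-- the digraph is strongly connected -/
def Strong {α : Type} (V : List α) (B : List (α × α)) : Prop :=
  ∀ x ∈ V, ∀ y ∈ V, Relation.ReflTransGen (fun a b => (a, b) ∈ B) x y

/-- An instance: the list of the vertices and the list of the arcs of a digraph. -/
abbrev Inst : Type := List ℕ × List (ℕ × ℕ)

/-- The instance describes a digraph without loops and parallel arcs. -/
def IsInst (I : Inst) : Prop :=
  I.1.Nodup ∧ I.2.Nodup ∧ ∀ e ∈ I.2, e.1 ∈ I.1 ∧ e.2 ∈ I.1 ∧ e.1 ≠ e.2

/-- There are two arc-disjoint spanning subdigraphs, with the arcs `A₁` and `A₂`; the first one is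
antistrong and the second one is strong. -/
def HasPair (I : Inst) : Prop :=
  ∃ A₁ A₂ : List (ℕ × ℕ), (∀ e ∈ A₁, e ∈ I.2) ∧ (∀ e ∈ A₂, e ∈ I.2) ∧ (∀ e ∈ A₁, e ∉ A₂) ∧
    Antistrong I.1 A₁ ∧ Strong I.1 A₂

/-- The decision problem. -/
def AntistrongStrong (I : Inst) : Prop := IsInst I ∧ HasPair I

end Pool.Agent.NPC.U19.AS
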