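import Pool.Agent.U19.AS.Corr
import Pool.Agent.H719.PC.Reach

/-!
# The reduction is computable in polynomial time, and the problem is in NP
-/

namespace Pool.Agent.NPC.U19.AS

open Relation
open Pool.Agent.H622R2 (ddup mem_ddup ddup_nodup ddup_poly)
open Pool.Agent.H719.PC (reachG mem_reachG poly_reachG)
open Pool.Agent.NPC.U19.TD (Cl sz_le_of_sublist sz_le_of_subperm ddup_eq_iff)

@[fun_prop]
theorem poly_nm {α : Type} [TEnc α] {r : α → ℕ} {b : α → Bool} {x c t : α → ℕ} (hr : Poly r)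
    (hb : Poly b) (hx : Poly x) (hc : Poly c) (ht : Poly t) :
    Poly (fun a => nm (r a) (b a) (x a) (c a) (t a)) := by
  unfold nm
  fun_prop

@[fun_prop]
theorem poly_ltB {α : Type} [TEnc α] {φ : α → List Cl} {s : α → Bool} {x j : α → ℕ}
    (hφ : Poly φ) (hs : Poly s) (hx : Poly x) (hj : Poly j) :
    Poly (fun a => ltB (φ a) (s a) (x a) (j a)) := by
  unfold ltB
  fun_prop

theorem poly_vs : Poly vs := by
  unfold vs
  fun_prop

theorem poly_es : Poly es := by
  unfold es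
  fun_prop

theorem poly_red : Poly red := by
  unfold red
  have h1 := poly_vs
  have h2 := poly_es
  fun_prop

theorem hardPr_pair : HardPr IsInst HasPair :=
  hardPr_SAT3b.trans poly_red (fun _ h => isInst_red h.2.1 h.2.2)
    (fun _ h => red_correct h.1 h.2.1 h.2.2)

theorem hard_pair : NPHardP AntistrongStrong := by
  have h : HardPr IsInst AntistrongStrong :=
    hardPr_pair.trans Poly.id (fun _ h => h)
      (fun I h => ⟨fun h' => ⟨h, h'⟩, fun h' => h'.2⟩)
  exact h.toHardI.toNPHardP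

/-! ### Membership in NP -/

theorem rtg_mono {α : Type} {R S : α → α → Prop} (h : ∀ a b, R a b → S a b) {x y : α}
    (hxy : ReflTransGen R x y) : ReflTransGen S x y := by
  induction hxy with
  | refl => exact .refl
  | tail _ h2 ih => exact ih.tail (h _ _ h2)

/-- the instance is well-formed, as a Boolean -/
def isInstB (I : Inst) : Bool :=
  decide (ddup I.1 = I.1) && (decide (ddup I.2 = I.2) &&
    I.2.all (fun e => decide (e.1 ∈ I.1) && (decide (e.2 ∈ I.1) && !decide (e.1 = e.2))))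

theorem isInstB_iff (I : Inst) : isInstB I = true ↔ IsInst I := by
  unfold isInstB IsInst
  simp only [Bool.and_eq_true, decide_eq_true_eq, ddup_eq_iff, List.all_eq_true,
    Bool.not_eq_true', decide_eq_false_iff_not, ne_eq]

/-- adjacency in the bipartite representation, as a Boolean -/
def adjB (B : List (ℕ × ℕ)) (a b : ℕ × Bool) : Bool :=
  (!a.2 && (b.2 && decide ((a.1, b.1) ∈ B))) || (a.2 && (!b.2 && decide ((b.1, a.1) ∈ B)))

theorem adjB_iff (B : List (ℕ × ℕ)) (a b : ℕ × Bool) :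
    adjB B a b = true ↔ (BG (fun p q => (p, q) ∈ B)).Adj a b := by
  unfold adjB BG
  simp only [Bool.or_eq_true, Bool.and_eq_true, Bool.not_eq_true', decide_eq_true_eq]

/-- the vertices of the bipartite representation -/
def bV (V : List ℕ) : List (ℕ × Bool) := V.flatMap (fun v => [(v, false), (v, true)])

theorem mem_bV {V : List ℕ} {a : ℕ × Bool} : a ∈ bV V ↔ a.1 ∈ V := by
  unfold bV
  simp only [List.mem_flatMap, List.mem_cons, List.not_mem_nil, or_false]
  constructor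
  · rintro ⟨v, hv, rfl | rfl⟩ <;> exact hv
  · intro h
    obtain ⟨v, b⟩ := a
    refine ⟨v, h, ?_⟩
    cases b <;> simp

/-- the verifier; the certificate consists of the lists of the arcs of the two subdigraphs -/
def verB (p : Inst × (List (ℕ × ℕ) × List (ℕ × ℕ))) : Bool :=
  isInstB p.1 && ((p.2.1.all (fun e => decide (e ∈ p.1.2)) &&
    (p.2.2.all (fun e => decide (e ∈ p.1.2)) && p.2.1.all (fun e => !decide (e ∈ p.2.2)))) &&
    ((decide (3 ≤ p.1.1.length) && (bV p.1.1).all (fun a => (bV p.1.1).all fun b =>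
      decide (b ∈ reachG (adjB p.2.1) (bV p.1.1) a))) &&
    p.1.1.all (fun x => p.1.1.all fun y =>
      decide (y ∈ reachG (fun a b => decide ((a, b) ∈ p.2.2)) p.1.1 x))))

@[fun_prop]
theorem poly_adjB {α : Type} [TEnc α] {B : α → List (ℕ × ℕ)} {a b : α → ℕ × Bool} (hB : Poly B)
    (ha : Poly a) (hb : Poly b) : Poly (fun x => adjB (B x) (a x) (b x)) := by
  unfold adjB
  fun_prop

@[fun_prop]
theorem poly_bV {α : Type} [TEnc α] {V : α → List ℕ} (hV : Poly V) :
    Poly (fun x => bV (V x)) := by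
  unfold bV
  fun_prop

theorem poly_verB : Poly verB := by
  unfold verB isInstB
  fun_prop

theorem reach_bip {I : Inst} (hI : IsInst I) {B : List (ℕ × ℕ)} (hB : ∀ e ∈ B, e ∈ I.2)
    (a b : ℕ × Bool) : (a ∈ bV I.1 ∧ ReflTransGen (fun a b => adjB B a b = true ∧ b ∈ bV I.1) a b) ↔
      a ∈ bV I.1 ∧ (BG (fun p q => (p, q) ∈ B)).Reachable a b := by
  rw [SimpleGraph.reachable_iff_reflTransGen]
  refine and_congr_right fun _ => ?_
  constructor
  · intro h
    exact rtg_mono (fun x y h => (adjB_iff B x y).1 h.1) h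
  · intro h
    refine rtg_mono (fun x y h => ⟨(adjB_iff B x y).2 h, ?_⟩) h
    rw [mem_bV]
    rcases h with ⟨_, _, h⟩ | ⟨_, _, h⟩
    · exact (hI.2.2 _ (hB _ h)).2.1
    · exact (hI.2.2 _ (hB _ h)).1

theorem antistrong_iff {I : Inst} {B : List (ℕ × ℕ)} :
    Antistrong I.1 B ↔ 3 ≤ I.1.length ∧ (I.1.Nodup → ∀ a ∈ bV I.1, ∀ b ∈ bV I.1,
      (BG (fun p q => (p, q) ∈ B)).Reachable a b) ∧ (¬ I.1.Nodup → Antistrong I.1 B) := by
  constructor
  · intro h
    refine ⟨h.1, ?_, fun _ => h⟩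
    intro hnd
    have h1 : ∀ x ∈ I.1, ∀ y ∈ I.1, x ≠ y →
        (BG (fun p q => (p, q) ∈ B)).Reachable (x, false) (y, true) := by
      intro x hx y hy hxy
      obtain ⟨l, hl⟩ := h.2 x hx y hy hxy
      exact reachable_of_trail hl
    -- a vertex different from two given ones
    have h2 : ∀ x y : ℕ, ∃ z ∈ I.1, z ≠ x ∧ z ≠ y := by
      intro x y
      by_contra hcon
      push Not at hcon
      have h3 : I.1 ⊆ [x, y] := by
        intro z hz
        by_cases hzx : z = x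
        · simp [hzx]
        · simp [hcon z hz hzx]
      have h4 := (hnd.subperm h3).length_le
      have h5 := h.1
      simp only [List.length_cons, List.length_nil] at h4
      omega
    have h3 : ∀ x ∈ I.1, ∀ y ∈ I.1, (BG (fun p q => (p, q) ∈ B)).Reachable (x, false) (y, false) := by
      intro x hx y hy
      obtain ⟨z, hz, h4, h5⟩ := h2 x y
      exact (h1 x hx z hz (Ne.symm h4)).trans (h1 y hy z hz (Ne.symm h5)).symm
    have h4 : ∀ x ∈ I.1, ∀ y ∈ I.1, (BG (fun p q => (p, q) ∈ B)).Reachable (x, false) (y, true) := by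
      intro x hx y hy
      obtain ⟨z, hz, h4, h5⟩ := h2 x y
      exact (h3 x hx z hz).trans (h1 z hz y hy h5)
    rintro ⟨x, a⟩ hx ⟨y, b⟩ hy
    rw [mem_bV] at hx hy
    cases a <;> cases b
    · exact h3 x hx y hy
    · exact h4 x hx y hy
    · exact (h4 y hy x hx).symm
    · exact (h4 x hx x hx).symm.trans (h4 x hx y hy)
  · rintro ⟨h1, h2, h3⟩
    by_cases hnd : I.1.Nodup
    · refine ⟨h1, fun x hx y hy _ => ?_⟩
      exact exists_trail (R := fun p q => (p, q) ∈ B)
        (h2 hnd (x, false) (mem_bV.2 hx) (y, true) (mem_bV.2 hy))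
    · exact h3 hnd

theorem verB_iff (I : Inst) (A₁ A₂ : List (ℕ × ℕ)) : verB (I, A₁, A₂) = true ↔
    IsInst I ∧ (∀ e ∈ A₁, e ∈ I.2) ∧ (∀ e ∈ A₂, e ∈ I.2) ∧ (∀ e ∈ A₁, e ∉ A₂) ∧
      Antistrong I.1 A₁ ∧ Strong I.1 A₂ := by
  unfold verB
  simp only [Bool.and_eq_true, isInstB_iff, decide_eq_true_eq, List.all_eq_true, Bool.not_eq_true',
    decide_eq_false_iff_not, mem_reachG]
  constructor
  · rintro ⟨hI, ⟨h1, h2, h3⟩, ⟨h4, h5⟩, h6⟩
    refine ⟨hI, h1, h2, h3, ?_, ?_⟩
    · rw [antistrong_iff]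
      exact ⟨h4, fun _ a ha b hb => ((reach_bip hI h1 a b).1 (h5 a ha b hb)).2, fun h => absurd hI.1 h⟩
    · intro x hx y hy
      exact rtg_mono (fun a b h => h.1) (h6 x hx y hy).2
  · rintro ⟨hI, h1, h2, h3, h4, h5⟩
    rw [antistrong_iff] at h4
    refine ⟨hI, ⟨h1, h2, h3⟩, ⟨h4.1, fun a ha b hb => (reach_bip hI h1 a b).2
      ⟨ha, h4.2.1 hI.1 a ha b hb⟩⟩, fun x hx y hy => ⟨hx, ?_⟩⟩
    exact rtg_mono (fun a b h => ⟨h, (hI.2.2 _ (h2 _ h)).2.1⟩) (h5 x hx y hy)

theorem inNPP_pair : InNPP AntistrongStrong := by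
  refine inNPP_of (β := List (ℕ × ℕ) × List (ℕ × ℕ)) poly_verB
    (Polynomial.X + Polynomial.X + 1) ?_
  intro I
  simp only [Polynomial.eval_add, Polynomial.eval_X, Polynomial.eval_one]
  constructor
  · rintro ⟨hI, A₁, A₂, h1, h2, h3, h4, h5⟩
    have e1 : ∀ {A : List (ℕ × ℕ)}, (∀ e ∈ A, e ∈ I.2) → ∀ e, e ∈ I.2.filter (fun e => decide (e ∈ A)) ↔
        e ∈ A := by
      intro A hA e
      rw [List.mem_filter, decide_eq_true_eq]
      exact ⟨fun h => h.2, fun h => ⟨hA e h, h⟩⟩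
    have m1 := e1 h1
    have m2 := e1 h2
    refine ⟨(I.2.filter (fun e => decide (e ∈ A₁)), I.2.filter (fun e => decide (e ∈ A₂))), ?_,
      (verB_iff _ _ _).2 ⟨hI, fun e he => h1 e ((m1 e).1 he), fun e he => h2 e ((m2 e).1 he), ?_,
        ⟨h4.1, ?_⟩, ?_⟩⟩
    · have a1 : sz (I.2.filter (fun e => decide (e ∈ A₁))) ≤ sz I.2 :=
        sz_le_of_sublist List.filter_sublist
      have a2 : sz (I.2.filter (fun e => decide (e ∈ A₂))) ≤ sz I.2 :=
        sz_le_of_sublist List.filter_sublist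
      have a4 : sz I = sz I.1 + sz I.2 + 1 := sz_pair _ _
      rw [sz_pair]
      omega
    · intro e he he'
      exact h3 e ((m1 e).1 he) ((m2 e).1 he')
    · intro x hx y hy hxy
      obtain ⟨l, a1, a2, a3, a4, a5⟩ := h4.2 x hx y hy hxy
      exact ⟨l, a1, a2, a3, a4, fun e he => (m1 e).2 (a5 e he)⟩
    · intro x hx y hy
      exact rtg_mono (fun a b h => (m2 _).2 h) (h5 x hx y hy)
  · rintro ⟨⟨A₁, A₂⟩, -, h⟩
    rw [verB_iff] at h
    exact ⟨h.1, A₁, A₂, h.2.1, h.2.2.1, h.2.2.2.1, h.2.2.2.2⟩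

theorem decidable_iff :
    (∃ A : List Bool → List Bool, PolyTime A ∧
      ∀ I : Inst, IsInst I → (A (bits I) = [true] ↔ HasPair I)) ↔
    ∀ L : Set (List Bool), InNP L → InP L := by
  constructor
  · rintro ⟨A, hA, hA'⟩ L hL
    obtain ⟨f, hf, hpr, hfL⟩ := hardPr_pair L hL
    refine ⟨fun w => A (bits (f w)), Pool.Agent.H642R2.TMSim.polyTime_comp hA (PC.toPolyTime hf),
      fun w => ?_⟩
    rw [hfL w]
    exact (hA' (f w) (hpr w)).symm
  · intro h
    obtain ⟨A, hA, hA'⟩ := h _ inNPP_pair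
    refine ⟨A, hA, fun I hI => ?_⟩
    rw [← hA', bits_mem_lang]
    exact ⟨fun h => h.2, fun h => ⟨hI, h⟩⟩

end Pool.Agent.NPC.U19.AS
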