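import Pool.Agent.U19.AS.Comp
import Pool.Agent.U19.TD.Final

/-!
# The reduction from 3SAT
-/

namespace Pool.Agent.NPC.U19.AS

open Relation
open Pool.Agent.H622R2 (ddup mem_ddup ddup_nodup ddup_poly)
open Pool.Agent.NPC.U19.TD (Cl InCl sg sg_inj inCl_lt sat_iff')

/-- the code of a name -/
def nm (r : ℕ) (b : Bool) (x c t : ℕ) : ℕ :=
  Nat.pair r (Nat.pair (sg b) (Nat.pair x (Nat.pair c t)))

theorem nm_inj {r r' : ℕ} {b b' : Bool} {x x' c c' t t' : ℕ} :
    nm r b x c t = nm r' b' x' c' t' ↔ r = r' ∧ b = b' ∧ x = x' ∧ c = c' ∧ t = t' := by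
  unfold nm
  simp only [Nat.pair_eq_pair]
  constructor
  · rintro ⟨h1, h2, h3, h4, h5⟩
    exact ⟨h1, sg_inj h2, h3, h4, h5⟩
  · rintro ⟨rfl, rfl, rfl, rfl, rfl⟩
    exact ⟨rfl, rfl, rfl, rfl, rfl⟩

/-- the code of a vertex -/
def cod : Nd → ℕ
  | .m t => nm 0 false 0 0 t
  | .k c t => nm 1 false 0 c t
  | .o x c b => nm 2 b x c 0
  | .i x c b t => nm 3 b x c t

theorem cod_inj : Function.Injective cod := by
  intro p q h
  cases p <;> cases q <;> simp_all [cod, nm_inj]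

/-- the vertices -/
def vs (φ : List Cl) : List ℕ :=
  (List.range 4).map (fun t => nm 0 false 0 0 t) ++
    ((List.range φ.length).flatMap (fun c => (List.range 4).map fun t => nm 1 false 0 c t) ++
    (List.range (3 * φ.length)).flatMap (fun x => (List.range φ.length).flatMap fun c =>
      [true, false].flatMap fun b => nm 2 b x c 0 :: (List.range 4).map fun t => nm 3 b x c t))

/-- the literal is in the clause with number `j` -/
def Lt (φ : List Cl) (s : Bool) (x j : ℕ) : Prop := ∃ d : Cl, φ[j]? = some d ∧ InCl (s, x) d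

/-- the literal is in the clause with number `j`, as a Boolean -/
def ltB (φ : List Cl) (s : Bool) (x j : ℕ) : Bool :=
  φ.zipIdx.any (fun p => decide (p.2 = j) && (decide ((s, x) = p.1.1) || (decide ((s, x) = p.1.2.1) ||
    decide ((s, x) = p.1.2.2))))

theorem ltB_iff {φ : List Cl} {s : Bool} {x j : ℕ} : ltB φ s x j = true ↔ Lt φ s x j := by
  unfold ltB Lt InCl
  simp only [List.any_eq_true, Bool.and_eq_true, Bool.or_eq_true, decide_eq_true_eq,
    List.mem_zipIdx_iff_getElem?]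
  constructor
  · rintro ⟨⟨d, k⟩, h1, rfl, h2⟩
    exact ⟨d, h1, h2⟩
  · rintro ⟨d, h1, h2⟩
    exact ⟨(d, j), h1, rfl, h2⟩

/-- pairs of different numbers less than `4` -/
def prs4 : List (ℕ × ℕ) :=
  [(0, 1), (0, 2), (0, 3), (1, 0), (1, 2), (1, 3), (2, 0), (2, 1), (2, 3), (3, 0), (3, 1), (3, 2)]

theorem mem_prs4 {p : ℕ × ℕ} : p ∈ prs4 ↔ p.1 < 4 ∧ p.2 < 4 ∧ p.1 ≠ p.2 := by
  obtain ⟨t, t'⟩ := p
  constructor
  · intro h
    simp only [prs4, List.mem_cons, List.not_mem_nil, or_false, Prod.mk.injEq] at h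
    omega
  · rintro ⟨h1, h2, h3⟩
    simp only at h1 h2 h3
    interval_cases t <;> interval_cases t' <;> simp_all [prs4]

/-- the arcs -/
def es (φ : List Cl) : List (ℕ × ℕ) :=
  prs4.map (fun p => (nm 0 false 0 0 p.1, nm 0 false 0 0 p.2)) ++
  ((List.range φ.length).flatMap (fun c => (prs4.map fun p =>
      (nm 1 false 0 c p.1, nm 1 false 0 c p.2)) ++
      (List.range 2).map fun t => (nm 0 false 0 0 t, nm 1 false 0 c 0)) ++
  ((List.range (3 * φ.length)).flatMap (fun x => (List.range φ.length).flatMap fun c =>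
    ([true, false].flatMap fun b =>
      (nm 2 b x c 0, nm 3 b x c 0) ::
      ((prs4.map fun p => (nm 3 b x c p.1, nm 3 b x c p.2)) ++
      ((bif ltB φ b x c then
        [(nm 3 b x c 1, nm 1 false 0 c 0), (nm 3 b x c 2, nm 1 false 0 c 0)]
      else
        [(nm 3 b x c 1, nm 0 false 0 0 0), (nm 3 b x c 2, nm 0 false 0 0 0)]) ++
      (bif (b || (!ltB φ true x c && !ltB φ false x c)) then
        (List.range 2).map (fun t => (nm 0 false 0 0 t, nm 2 b x c 0))
      else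
        (List.range 2).map (fun t => (nm 1 false 0 c t, nm 2 false x c 0)))))) ++
    [(nm 2 false x c 0, nm 3 true x c 0),
      (bif decide (c + 1 = φ.length) then (nm 2 true x c 0, nm 3 false x 0 0)
      else (nm 2 true x c 0, nm 3 false x (c + 1) 0))])))

theorem lt_bound {φ : List Cl} (hb : Bounded3 φ) (s : Bool) (x j : ℕ) (h : Lt φ s x j) :
    x < 3 * φ.length ∧ j < φ.length := by
  obtain ⟨d, h1, h2⟩ := h
  exact ⟨inCl_lt hb h1 h2, (List.getElem?_eq_some_iff.1 h1).1⟩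

theorem mem_vs {φ : List Cl} {z : ℕ} :
    z ∈ vs φ ↔ ∃ p, Vd φ.length (3 * φ.length) p ∧ z = cod p := by
  simp only [vs, List.mem_append, List.mem_flatMap, List.mem_range, List.mem_map, List.mem_cons,
    List.not_mem_nil, or_false]
  constructor
  · rintro (⟨t, ht, rfl⟩ | ⟨c, hc, t, ht, rfl⟩ | ⟨x, hx, c, hc, b, -, h⟩)
    · exact ⟨_, .m ht, rfl⟩
    · exact ⟨_, .k hc ht, rfl⟩
    · rcases h with rfl | ⟨t, ht, rfl⟩
      · exact ⟨_, .o hx hc, rfl⟩
      · exact ⟨_, .i hx hc ht, rfl⟩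
  · rintro ⟨p, hp, rfl⟩
    cases hp with
    | @m t h => exact Or.inl ⟨t, h, rfl⟩
    | @k c t h h' => exact Or.inr (Or.inl ⟨c, h, t, h', rfl⟩)
    | @o x c b h h' =>
      exact Or.inr (Or.inr ⟨x, h, c, h', b, by cases b <;> simp, Or.inl rfl⟩)
    | @i x c b t h h' h'' =>
      exact Or.inr (Or.inr ⟨x, h, c, h', b, by cases b <;> simp, Or.inr ⟨t, h'', rfl⟩⟩)

theorem es_arc {φ : List Cl} {z : ℕ × ℕ} (hz : z ∈ es φ) :
    ∃ p q, Arc φ.length (3 * φ.length) (Lt φ) p q ∧ z = (cod p, cod q) := by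
  simp only [es, List.mem_append, List.mem_flatMap, List.mem_range, List.mem_cons,
    List.not_mem_nil, or_false, List.mem_map] at hz
  rcases hz with ⟨p, hp, rfl⟩ | ⟨c, hc, ⟨p, hp, rfl⟩ | ⟨t, ht, rfl⟩⟩ |
    ⟨x, hx, c, hc, ⟨b, -, rfl | ⟨p, hp, rfl⟩ | h | h⟩ | rfl | h⟩
  · rw [mem_prs4] at hp
    exact ⟨_, _, .mm hp.1 hp.2.1 hp.2.2, rfl⟩
  · rw [mem_prs4] at hp
    exact ⟨_, _, .kk hc hp.1 hp.2.1 hp.2.2, rfl⟩
  · exact ⟨_, _, .mk hc ht, rfl⟩
  · exact ⟨_, _, .oT hx hc, rfl⟩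
  · rw [mem_prs4] at hp
    exact ⟨_, _, .ii hx hc hp.1 hp.2.1 hp.2.2, rfl⟩
  · by_cases hl : Lt φ b x c
    · rw [ltB_iff.2 hl] at h
      simp only [cond_true, List.mem_cons, List.not_mem_nil, or_false] at h
      rcases h with rfl | rfl
      · exact ⟨_, _, .ik (Or.inl rfl) hl, rfl⟩
      · exact ⟨_, _, .ik (Or.inr rfl) hl, rfl⟩
    · have : ltB φ b x c = false := by
        rw [← Bool.not_eq_true, ltB_iff]
        exact hl
      rw [this] at h
      simp only [cond_false, List.mem_cons, List.not_mem_nil, or_false] at h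
      rcases h with rfl | rfl
      · exact ⟨_, _, .im hx hc (Or.inl rfl) hl, rfl⟩
      · exact ⟨_, _, .im hx hc (Or.inr rfl) hl, rfl⟩
  · by_cases hb : (b || (!ltB φ true x c && !ltB φ false x c)) = true
    · rw [hb] at h
      simp only [cond_true, List.mem_map, List.mem_range] at h
      obtain ⟨t, ht, rfl⟩ := h
      refine ⟨_, _, .mo hx hc ht ?_, rfl⟩
      simp only [Bool.or_eq_true, Bool.and_eq_true, Bool.not_eq_true'] at hb
      rcases hb with hb | ⟨h1, h2⟩
      · exact Or.inl hb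
      · right
        intro s hs
        rw [← ltB_iff] at hs
        cases s
        · rw [h2] at hs; simp at hs
        · rw [h1] at hs; simp at hs
    · rw [Bool.not_eq_true] at hb
      rw [hb] at h
      simp only [cond_false, List.mem_map, List.mem_range] at h
      obtain ⟨t, ht, rfl⟩ := h
      have h1 : ∃ s, Lt φ s x c := by
        by_contra hcon
        push Not at hcon
        have h3 : ∀ s, ltB φ s x c = false := by
          intro s
          rw [← Bool.not_eq_true, ltB_iff]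
          exact hcon s
        rw [h3, h3] at hb
        simp at hb
      obtain ⟨s, hs⟩ := h1
      exact ⟨_, _, .ko ht hs, rfl⟩
  · exact ⟨_, _, .oF hx hc, rfl⟩
  · by_cases hc' : c + 1 = φ.length
    · rw [decide_eq_true hc', cond_true] at h
      subst h
      exact ⟨_, _, .oH hx hc', rfl⟩
    · rw [decide_eq_false hc', cond_false] at h
      subst h
      exact ⟨_, _, .oG hx (by omega), rfl⟩

theorem arc_es {φ : List Cl} (hb3 : Bounded3 φ) {p q : Nd}
    (h : Arc φ.length (3 * φ.length) (Lt φ) p q) : (cod p, cod q) ∈ es φ := by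
  simp only [es, List.mem_append, List.mem_flatMap, List.mem_range, List.mem_cons,
    List.not_mem_nil, or_false, List.mem_map]
  cases h with
  | @mm t t' h1 h2 h3 => exact Or.inl ⟨(t, t'), mem_prs4.2 ⟨h1, h2, h3⟩, rfl⟩
  | @kk c t t' h0 h1 h2 h3 =>
    exact Or.inr (Or.inl ⟨c, h0, Or.inl ⟨(t, t'), mem_prs4.2 ⟨h1, h2, h3⟩, rfl⟩⟩)
  | @ii x c b t t' hx hc h1 h2 h3 =>
    exact Or.inr (Or.inr ⟨x, hx, c, hc, Or.inl ⟨b, by cases b <;> simp,
      Or.inr (Or.inl ⟨(t, t'), mem_prs4.2 ⟨h1, h2, h3⟩, rfl⟩)⟩⟩)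
  | @mk c t h1 h2 => exact Or.inr (Or.inl ⟨c, h1, Or.inr ⟨t, h2, rfl⟩⟩)
  | @mo x c b t hx hc ht h' =>
    refine Or.inr (Or.inr ⟨x, hx, c, hc, Or.inl ⟨b, by cases b <;> simp,
      Or.inr (Or.inr (Or.inr ?_))⟩⟩)
    have h1 : (b || (!ltB φ true x c && !ltB φ false x c)) = true := by
      rcases h' with rfl | h'
      · rfl
      · have h3 : ∀ s, ltB φ s x c = false := by
          intro s
          rw [← Bool.not_eq_true, ltB_iff]
          exact h' s
        rw [h3, h3]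
        simp
    rw [h1, cond_true, List.mem_map]
    exact ⟨t, List.mem_range.2 ht, rfl⟩
  | @ko x c s t ht hs =>
    have hb := lt_bound hb3 _ _ _ hs
    refine Or.inr (Or.inr ⟨x, hb.1, c, hb.2, Or.inl ⟨false, by simp,
      Or.inr (Or.inr (Or.inr ?_))⟩⟩)
    have h1 : (false || (!ltB φ true x c && !ltB φ false x c)) = false := by
      have h2 := ltB_iff.2 hs
      cases s <;> simp [h2]
    rw [h1, cond_false, List.mem_map]
    exact ⟨t, List.mem_range.2 ht, rfl⟩
  | @im x c b t hx hc ht hP =>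
    refine Or.inr (Or.inr ⟨x, hx, c, hc, Or.inl ⟨b, by cases b <;> simp,
      Or.inr (Or.inr (Or.inl ?_))⟩⟩)
    have : ltB φ b x c = false := by
      rw [← Bool.not_eq_true, ltB_iff]
      exact hP
    rw [this, cond_false]
    rcases ht with rfl | rfl
    · simp [cod]
    · simp [cod]
  | @ik x c b t ht hP =>
    have hb := lt_bound hb3 _ _ _ hP
    refine Or.inr (Or.inr ⟨x, hb.1, c, hb.2, Or.inl ⟨b, by cases b <;> simp,
      Or.inr (Or.inr (Or.inl ?_))⟩⟩)
    rw [ltB_iff.2 hP, cond_true]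
    rcases ht with rfl | rfl
    · simp [cod]
    · simp [cod]
  | @oT x c b hx hc =>
    exact Or.inr (Or.inr ⟨x, hx, c, hc, Or.inl ⟨b, by cases b <;> simp, Or.inl rfl⟩⟩)
  | @oF x c hx hc => exact Or.inr (Or.inr ⟨x, hx, c, hc, Or.inr (Or.inl rfl)⟩)
  | @oG x c hx hc =>
    refine Or.inr (Or.inr ⟨x, hx, c, by omega, Or.inr (Or.inr ?_)⟩)
    rw [decide_eq_false (by omega), cond_false]
    rfl
  | @oH x c hx hc =>
    refine Or.inr (Or.inr ⟨x, hx, c, by omega, Or.inr (Or.inr ?_)⟩)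
    rw [decide_eq_true hc, cond_true]
    rfl

end Pool.Agent.NPC.U19.AS
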